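import Pool.Agent.WAT.StmtsF

/-!
# Squad WAX: abelian defect groups, the conditions on `[T, V]` and on the exponent of `V`

On top of squad WAT (theorem of Watanabe).  Setting: `Ld ℓ e V γ`, `V` abelian, `T = Tg V γ`,
`E = T / C(V)`, `ix V γ = |E|`, `Vc V γ = [T, V]`, `Zf V γ` the elements of `V` which commute with `T`.
Complete proofs in the docstrings; all rows are independent (a row may take the rows which it uses as
hypotheses).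

THEOREM.  Let `ℓ ^ a` be the exponent of `V`, `r` the rank of `[T, V]`.  The alternating sum is zero
if `|E| < ℓ` and `r ≤ a`, or `ℓ ≠ 2`, `E` is abelian and `r ^ 2 < 2 a`, or `2 r ^ 3 + 2 r ep ℓ ≤ a`,
or `ℓ ≠ 2`, `E` acts freely on `[T, V]` and `|E| ≤ ℓ ^ a`.
-/

open scoped BigOperators

noncomputable section

namespace Pool.Agent.PP.TX

open Pool.Agent.Helper51_AWC Pool.Agent.Helper79_WRA Pool.Agent.PP Pool.Agent.PP.KF
open Pool.Agent.PP.K9 Pool.Agent.PP.K9.H97 Pool.Agent.PP.H75 Pool.Agent.PP.T3 Pool.Agent.PP.T2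
open Pool.Agent.PP.T5 Pool.Agent.PP.TB Pool.Agent.PP.TV
open Pool.Agent.PP.T8 (Rv Fq Fr Ei Hk Rk Fd In)

attribute [local instance] Ideal.Quotient.field

section defs

variable {G : Type} [Group G]

/-- `W / W ^ ℓ` has order at most `ℓ ^ r` (for an abelian `ℓ`-group: `r` generators). -/
def Rr (ℓ r : ℕ) (W : Subgroup G) : Prop := Nat.card W ≤ ℓ ^ r * Nat.card (Uw ℓ W)

/-- The inertial quotient is abelian. -/
def Ab {F : Type} (V : Subgroup G) (γ : G → F) : Prop :=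
  ∀ s ∈ Tg V γ, ∀ t ∈ Tg V γ, s * t * s⁻¹ * t⁻¹ ∈ Subgroup.centralizer (V : Set G)

/-- The conditions on the inertial quotient and on the rank `r` of `[T, V]`. -/
def Tx {F : Type} (ℓ a : ℕ) (V : Subgroup G) (γ : G → F) : Prop :=
  (ℓ ≠ 2 ∧ Fc V γ ∧ ix V γ ≤ ℓ ^ a) ∨
  ∃ r : ℕ, Rr ℓ r (Vc V γ) ∧ ((ix V γ < ℓ ∧ r ≤ a) ∨ (ℓ ≠ 2 ∧ Ab V γ ∧ r ^ 2 < 2 * a) ∨
    2 * r ^ 3 + 2 * r * ep ℓ ≤ a)

end defs

/-! ## 1. Bounds for the number of modular characters -/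

/-- LN0: the trivial defect group.

Proof.  `ln e ≤ |IrrE M e|` (`K9.LbdStmt`, `Helper3_K9/Lbd.lean`), and `|IrrE M e| = 1` for a block whose
good `ℓ`-subgroups are trivial (`Tp ℓ e ⊥`: they have order at most `|⊥| = 1`; `K9.DzoStmt`; see the
last part of `Helper18_AT5/LNB.lean`). -/
def Ln0Stmt : Prop := ∀ (ℓ : ℕ) [Fact ℓ.Prime] (M : Ideal (integralClosure ℤ ℂ)) [M.IsMaximal],
  (ℓ : integralClosure ℤ ℂ) ∈ M → ∀ (G : Type) [Group G] [Finite G] (e : G → FF M)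
  (V : Subgroup G) (γ : G → FF M), Ld ℓ e V γ → V = ⊥ → ln e ≤ 1

/-- BNK: the bound from the averages over the cosets of `V ^ (ℓ ^ k)`.

Proof.  As in the proofs of `T8.Lt8Stmt` (first type) and `T8.Lb8Stmt` (`Helper*_AT8/LB8.lean`), without
the last inequality.  `K9.InxStmt`.  `T8.RtrStmt` gives `y` with `Rk ℓ a 1`, so also `Rk ℓ a k`
(`v ^ (ℓ ^ k)` is an `ℓ`-th power of an element of `V`).  `T8.HkxStmt`, `T8.HgtStmt`.  `N` from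
`T2.Pr2Stmt`, the data from `T8.DatStmt`; `T2.FxsStmt` with `T2.StgStmt`: `ln e ≤ |R|`, `R` the set of
the fixed characters; `T8.Bn8Stmt`: `|R| ℓ ^ (k-1) |V ^ (ℓ ^ k)| ≤ |V|`. -/
def BnkStmt : Prop := ∀ (ℓ : ℕ) [Fact ℓ.Prime] (M : Ideal (integralClosure ℤ ℂ)) [M.IsMaximal],
  (ℓ : integralClosure ℤ ℂ) ∈ M → ℓ ≠ 2 → ∀ (G : Type) [Group G] [Finite G] (e : G → FF M)
  (V : Subgroup G) (γ : G → FF M), Ld ℓ e V γ → ∀ a k : ℕ, 0 < k → k ≤ a →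
  Monoid.exponent V = ℓ ^ a → Ei ℓ V γ → Hk ℓ k V γ →
    ln e * ℓ ^ (k - 1) * Nat.card (Uw (ℓ ^ k) V) ≤ Nat.card V

/-- KRG: the bound if there is a regular element.

Proof.  As `SO.HKbStmt` (`Helper*_ASO`, row HKB), which is the case of an elementary abelian `V` of order
`ℓ ^ 2`.  Let `u` be regular, `u ≠ 1` (if `u = 1` then `T = C(V)` and every element of `V` is regular;
`V = 1`: LN0), of order `q = ℓ ^ b`, `β` its local block, `d` its degree, `v_j(χ) = gv u^j β χ/d`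
(`j` prime to `ℓ`; `T3.RglStmt`, `T3.LpwStmt`: the same block, the same degree).  For `χ ∈ e`
`v_1(χ) ≠ 0` (`T5.Nz5Stmt` or `T3`, see HKB), so by `T3.GlpStmt` (`a = b`) `∑_j |v_j(χ)|² ≥ φ(q)`, `j < q`
prime to `ℓ`, and `∑_{χ ∈ Irr G} |v_j(χ)|² = |V|` for every `j` (`T3.Co1Stmt`).  So
`φ(q) |IrrE M e| ≤ φ(q) |V|`, and `ln e ≤ |IrrE M e|` (`K9.LbdStmt`). -/
def KrgStmt : Prop := ∀ (ℓ : ℕ) [Fact ℓ.Prime] (M : Ideal (integralClosure ℤ ℂ)) [M.IsMaximal],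
  (ℓ : integralClosure ℤ ℂ) ∈ M → ∀ (G : Type) [Group G] [Finite G] (e : G → FF M)
  (V : Subgroup G) (γ : G → FF M), Ld ℓ e V γ → (∃ u, Rg V γ u) → ln e ≤ Nat.card V

/-- LXA: small inertial quotients.

Proof.  `V = ⊥`: LN0.  Let `V ≠ ⊥`, `ℓ ^ b` its exponent, `b > 0`.  If `ℓ = 2` then `ix V γ = 1`,
`T = C(V)` and `Zf V γ = V ≠ ⊥`.  BNK with `a = b`, `k = 1` (`Ei`, `Hk` by `ix V γ < ℓ`):
`ln e |V ^ ℓ| ≤ |V| ≤ ℓ ^ r |V ^ ℓ|`. -/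
def LxaStmt : Prop := ∀ (ℓ : ℕ) [Fact ℓ.Prime] (M : Ideal (integralClosure ℤ ℂ)) [M.IsMaximal],
  (ℓ : integralClosure ℤ ℂ) ∈ M → ∀ (G : Type) [Group G] [Finite G] (e : G → FF M)
  (V : Subgroup G) (γ : G → FF M), Ld ℓ e V γ → Zf V γ = ⊥ → ix V γ < ℓ → ∀ r : ℕ,
  Rr ℓ r V → ln e ≤ ℓ ^ r

/-- LXB: abelian inertial quotients.

Proof.  `V = ⊥`: LN0.  Let `V ≠ ⊥`, `ℓ ^ b` its exponent, `b > 0`, so `r > 0` (`|V| ≤ |V ^ ℓ|` gives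
`V ^ ℓ = V`, `V = V ^ (ℓ ^ b) = ⊥`).  Let `k = (r + 1) / 2 > 0` (rounded down), so `r ≤ 2 k`, and `Hk ℓ k`
holds (first case).  `|V| ≤ ℓ ^ (r i) |V ^ (ℓ ^ i)|` for all `i` (`TB.UwaStmt` (ii)).
If `k ≤ b`: BNK (`Ei`, first case): `ln e ℓ ^ (k-1) |V ^ (ℓ ^ k)| ≤ |V| ≤ ℓ ^ (r k) |V ^ (ℓ ^ k)|`, so
`ln e ≤ ℓ ^ ((r-1) k + 1)`; for `r = 2 k`: `(2 k - 1) k + 1 ≤ 2 k ^ 2 + 1 ≤ a` as `4 k ^ 2 < 2 a`; for
`r = 2 k - 1`: `(2 k - 2) k + 1 ≤ a` as `4 k ^ 2 - 4 k + 1 < 2 a`.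
If `b < k`: `V ^ (ℓ ^ b) = ⊥`, `|V| ≤ ℓ ^ (r b) ≤ ℓ ^ (r (k-1)) ≤ ℓ ^ a` (`2 k (k-1)` resp.
`(2 k - 1)(k - 1)`), and there is a regular element (`T8.RtrStmt` (i), `Rk.reg` with `v = 1`), so
KRG gives `ln e ≤ |V|`. -/
def LxbStmt : Prop := ∀ (ℓ : ℕ) [Fact ℓ.Prime] (M : Ideal (integralClosure ℤ ℂ)) [M.IsMaximal],
  (ℓ : integralClosure ℤ ℂ) ∈ M → ℓ ≠ 2 → ∀ (G : Type) [Group G] [Finite G] (e : G → FF M)
  (V : Subgroup G) (γ : G → FF M), Ld ℓ e V γ → Ab V γ → ∀ r a : ℕ, Rr ℓ r V →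
  r ^ 2 < 2 * a → ln e ≤ ℓ ^ a

/-- LXC: all inertial quotients, all primes.

Proof.  `TB.BndStmt` with `p = 0`: `Cl ℓ r 0 V` with `Z₀ = V` (`Zc V = V ⊓ C(V) = V`), `Uw (ℓ ^ 0) (Zc V) = V`,
and `TW.StaStmt` for the last hypothesis.  `cb ℓ r 0 = 2 (r (r r + ep ℓ))`. -/
def LxcStmt : Prop := ∀ (ℓ : ℕ) [Fact ℓ.Prime] (M : Ideal (integralClosure ℤ ℂ)) [M.IsMaximal],
  (ℓ : integralClosure ℤ ℂ) ∈ M → ∀ (G : Type) [Group G] [Finite G] (e : G → FF M)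
  (V : Subgroup G) (γ : G → FF M), Ld ℓ e V γ → ∀ r : ℕ, Rr ℓ r V →
    ln e ≤ ℓ ^ (2 * r ^ 3 + 2 * r * ep ℓ)

/-! ## 2. The reduction to `C_V(T) = 1` -/

/-- LNW: a block with the same number of modular characters and without fixed points.

Proof.  Induction on `|G|`.  If `Zf V γ = ⊥` take `e` itself (`Fq` with `π` = identity).  Let `z ∈ Zf V γ`,
`z ≠ 1`, `C = Cu z`, `b` the local block of `z` (`T3.LocStmt`), `Ld` for `C` by `T3.LsbStmt`,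
`ln b = ln e` by WAT.  `Fq` from `G` to `C`: `TV.H38.fq_sub` (`Helper38_WAT/ABR.lean`).  Let
`Q = ⟨z⟩`, central in `C`, `A = C/Q`, `p : C → A`, `f₁ = push p b`: a block (`T3.PsgStmt`) with
`ln f₁ = ln b` (see `Helper18_AT5/LNB.lean`, `e1`), and `V.map p` is a defect group of `f₁`
(`K9.PugStmt`: good `ℓ`-subgroups of `f₁` have good preimages which contain `Q`; compare the proofs
of `T2.DzaStmt` (`Helper*_AT2/DZA.lean`) and `C2.DuvStmt`).  `T8.Qt3Stmt` for `C`, `b`, `Q` (`N_C(Q) = C` as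
`Q` is central, `br_Q(b) = b`; compare `Helper24_AT8/FN8.lean`, which does this for `Q = O_ℓ(G)`): `γ'`
with `Ld ℓ f₁ (V.map p) γ'` and `Fe`, so `Fq` (`T8.FqtStmt` (iv)).  `|A| < |C| ≤ |G|`: induction gives
`f`, `V'`, `γ'` for `A`; `Fq` is transitive (`T8.FqtStmt` (i)). -/
def LnwStmt : Prop := ∀ (ℓ : ℕ) [Fact ℓ.Prime] (M : Ideal (integralClosure ℤ ℂ)) [M.IsMaximal],
  (ℓ : integralClosure ℤ ℂ) ∈ M → ∀ (G : Type) [Group G] [Finite G] (e : G → FF M)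
  (V : Subgroup G) (γ : G → FF M), Ld ℓ e V γ →
  ∃ (A : Type) (_ : Group A) (_ : Finite A) (f : A → FF M) (V' : Subgroup A) (γ' : A → FF M),
    Ld ℓ f V' γ' ∧ ln f = ln e ∧ Fq V γ V' γ' ∧ Zf V' γ' = ⊥

/-- CLR: closure under quotients.

Proof.  `π : V → V'`; `Vc V' γ' ≤ (image of Vc V γ)` (see `TV.ClvStmt`, `Helper13_WAT/CLV.lean`: every
commutator `t' v' t'⁻¹ v'⁻¹` is `π (t v t⁻¹ v⁻¹)`).  `W ↦ |W : W ^ ℓ|` does not increase for surjective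
images (`W/W ^ ℓ → π(W)/π(W) ^ ℓ` is surjective; the `ℓ`-th powers of an abelian group form the image
of a homomorphism, `T2.PwuStmt`) nor for subgroups of abelian groups (`TB.UwaStmt` (i)).  `Ab`: part
(1) of the proof of `T8.Tc8Stmt`.  The exponent of `π(V)` divides the exponent of `V`. -/
def ClrStmt : Prop := ∀ (ℓ : ℕ) [Fact ℓ.Prime] (F : Type) [Field F], GoodF ℓ F → ∀ (G A : Type)
  [Group G] [Finite G] [Group A] [Finite A] (e : G → F) (V : Subgroup G) (γ : G → F)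
  (f : A → F) (V' : Subgroup A) (γ' : A → F), Ld ℓ e V γ → Ld ℓ f V' γ' → ¬ ℓ ∣ ix V γ →
  Fq V γ V' γ' → (∀ r, Rr ℓ r (Vc V γ) → Rr ℓ r (Vc V' γ')) ∧ (Ab V γ → Ab V' γ')

/-- CTX: the conditions `Tx` are closed under quotients.

Proof.  CLR and `TV.ClvStmt` (`Fc`, `ix`). -/
def CtxStmt : Prop := ∀ (ℓ : ℕ) [Fact ℓ.Prime] (F : Type) [Field F], GoodF ℓ F → ∀ (G A : Type)
  [Group G] [Finite G] [Group A] [Finite A] (e : G → F) (V : Subgroup G) (γ : G → F)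
  (f : A → F) (V' : Subgroup A) (γ' : A → F), Ld ℓ e V γ → Ld ℓ f V' γ' → ¬ ℓ ∣ ix V γ →
  Fq V γ V' γ' → ∀ a, Tx ℓ a V γ → Tx ℓ a V' γ'

/-- LTX: the bound (the exponent of `V` does not matter here).

Proof.  LNW: `A`, `f`, `V'`, `γ'` with `ln f = ln e`, `Zf V' γ' = ⊥`; CTX: `Tx ℓ a V' γ'` (`K9.InxStmt`).
`TV.CpvStmt`: `Vc V' γ' = V'`.  If `V' = ⊥`: LN0.  Let `V' ≠ ⊥`.  First case of `Tx`: `Fc V' γ'` is
`Fr V' γ'` (as `Vc V' γ' = V'`), `T8.LfrStmt`: `ln f ≤ ix V' γ' ≤ ℓ ^ a`.  Otherwise `Rr ℓ r V'`: LXA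
(`ℓ ^ r ≤ ℓ ^ a`), LXB, LXC. -/
def LtxStmt : Prop := ∀ (ℓ : ℕ) [Fact ℓ.Prime] (M : Ideal (integralClosure ℤ ℂ)) [M.IsMaximal],
  (ℓ : integralClosure ℤ ℂ) ∈ M → ∀ (G : Type) [Group G] [Finite G] (e : G → FF M)
  (V : Subgroup G) (γ : G → FF M), Ld ℓ e V γ → ∀ a : ℕ, Tx ℓ a V γ → ln e ≤ ℓ ^ a

/-! ## 3. The theorem -/

/-- GEN: the recursion for a class of blocks which is closed under quotients with the same exponent
and for which `ln e ≤ ℓ ^ a`.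

Proof.  Copy of `T8.T8aStmt` (`Helper3_AT8/T8A.lean`) with `P` instead of `Ty8 ℓ a V γ`, the hypothesis
`hcl` instead of TC8 and `hbd` instead of LT8 (the prime `2` is allowed). -/
def GenStmt : Prop := ∀ (ℓ : ℕ) [Fact ℓ.Prime] (M : Ideal (integralClosure ℤ ℂ)) [M.IsMaximal],
  (ℓ : integralClosure ℤ ℂ) ∈ M → ∀ a : ℕ, 0 < a →
  ∀ P : ∀ (G : Type) [Group G], (G → FF M) → Subgroup G → (G → FF M) → Prop,
  (∀ (G A : Type) [Group G] [Finite G] [Group A] [Finite A] (e : G → FF M) (V : Subgroup G)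
    (γ : G → FF M) (f : A → FF M) (V' : Subgroup A) (γ' : A → FF M), Ld ℓ e V γ →
    Ld ℓ f V' γ' → Fq V γ V' γ' → Monoid.exponent V = ℓ ^ a → Monoid.exponent V' = ℓ ^ a →
    P G e V γ → P A f V' γ') →
  (∀ (G : Type) [Group G] [Finite G] (e : G → FF M) (V : Subgroup G) (γ : G → FF M),
    Ld ℓ e V γ → Monoid.exponent V = ℓ ^ a → P G e V γ → ln e ≤ ℓ ^ a) →
  ∀ (G : Type) [Group G] [Finite G] (e : G → FF M) (V : Subgroup G) (γ : G → FF M),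
    Ld ℓ e V γ → Monoid.exponent V = ℓ ^ a → P G e V γ → YY ℓ ⊤ e = 0

/-- TXA: the theorem for blocks.

Proof.  GEN with `P G e V γ = Tx ℓ a V γ`, CTX (`K9.InxStmt`), LTX. -/
def TxaStmt : Prop := ∀ (ℓ : ℕ) [Fact ℓ.Prime] (M : Ideal (integralClosure ℤ ℂ)) [M.IsMaximal],
  (ℓ : integralClosure ℤ ℂ) ∈ M → ∀ (G : Type) [Group G] [Finite G] (e : G → FF M)
  (V : Subgroup G) (γ : G → FF M), Ld ℓ e V γ → ∀ a : ℕ, 0 < a →
  Monoid.exponent V = ℓ ^ a → Tx ℓ a V γ → YY ℓ ⊤ e = 0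

/-- FNX: the final theorem.  `D` is an abelian defect group of the block of `χ`, larger than `O_ℓ(G)`,
`th` belongs to a block of `C(D)` under the block of `χ`, `Iner M D th` is its inertial group,
`Dc M D th` the subgroup generated by the commutators of its elements with the elements of `D`; it has
`r` generators; the exponent of `D/O_ℓ(G)` is at least `ℓ ^ a`.

Proof.  As `TV.FnwStmt` (`Helper66_WAT/FNW.lean`).  With `A = G/O_ℓ(G)`, `V' = D.map p`, `γ'` and `Fe` as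
there: the exponent of `V'` is `ℓ ^ a₀`, `a₀ ≥ a`, and `Tx ℓ a` implies `Tx ℓ a₀`.  `r ≤ 2` and `3 |E| ≤ ℓ`
as in FNW (`TV.AbrStmt`, `T3.T3aStmt`).  For the other cases `Tx ℓ a V' γ'`: by `Fe` the group
`Vc V' γ'` is contained in the image of `n Dc n⁻¹`, which has `r` generators, so `Rr ℓ r (Vc V' γ')`
(abelian `ℓ`-groups; `TB.UwaStmt` (i) for subgroups); `ix V' γ'` is at most the index of the inertial
group of `th` (see FNW and `Helper24_AT8/FN8.lean`, also for `Ab`); `Fc` as in FNW.  TXA. -/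
def FnxStmt : Prop := ∀ (ℓ : ℕ) [Fact ℓ.Prime] (M : Ideal (integralClosure ℤ ℂ)) [M.IsMaximal],
  (ℓ : integralClosure ℤ ℂ) ∈ M → ∀ (G : Type) [Group G] [Finite G],
  opCore ℓ G ≤ Subgroup.center G → ∀ χ ∈ Irr G, ∀ D : Subgroup G, ML.IsDef ℓ M χ D →
  D ≠ opCore ℓ G → (∀ x ∈ D, ∀ y ∈ D, x * y = y * x) →
  ∀ th ∈ IrrBlock M (Subgroup.centralizer (D : Set G)).subtype χ,
  ∀ a : ℕ, 0 < a → (∃ d ∈ D, d ^ ℓ ^ (a - 1) ∉ opCore ℓ G) →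
  ∀ r : ℕ, (∃ s : Fin r → G, (∀ i, s i ∈ D) ∧ Dc M D th ≤ Subgroup.closure (Set.range s)) →
  (r ≤ 2 ∨ 3 * (Iner M D th).ncard ≤ ℓ * Nat.card (Subgroup.centralizer (D : Set G)) ∨
    (In M D th ℓ ∧ r ≤ a) ∨
    (ℓ ≠ 2 ∧ (∀ s ∈ Iner M D th, ∀ t ∈ Iner M D th,
      s * t * s⁻¹ * t⁻¹ ∈ Subgroup.centralizer (D : Set G)) ∧ r ^ 2 < 2 * a) ∨
    2 * r ^ 3 + 2 * r * ep ℓ ≤ a ∨
    (ℓ ≠ 2 ∧ In M D th (ℓ ^ a + 1) ∧ ∀ t ∈ Iner M D th, ∀ v ∈ Dc M D th, v ≠ 1 →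
      t * v = v * t → t ∈ Subgroup.centralizer (D : Set G))) → altSum ℓ M χ = 0

end Pool.Agent.PP.TX
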