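import Pool.Agent.Helper66_WAT.Asm
import Pool.Agent.AT8.Asm
import Pool.Agent.Helper11_ZAS.AsmZ
import Pool.Agent.Helper66_K9.Asm
import Pool.Agent.Helper3_K9.Lbd
import Pool.Agent.Helper2_K9.PUG
import Pool.Agent.Helper21_WAX.LN0
import Pool.Agent.Helper82_WAX.BNK
import Pool.Agent.Helper52_WAX.KRG
import Pool.Agent.Helper69_WAX.LXA
import Pool.Agent.Helper7_WAX.LXB
import Pool.Agent.Helper25_WAX.LXC
import Pool.Agent.Helper84_WAX.LNW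
import Pool.Agent.Helper76_WAX.CLR
import Pool.Agent.Helper67_WAX.CTX
import Pool.Agent.Helper58_WAX.LTX
import Pool.Agent.Helper17_WAX.GEN
import Pool.Agent.Helper20_WAX.FNX

/-!
# Squad WAX: the statements, closed

`txa_ : TxaStmt`: the theorem for blocks; `fnx_ : FnxStmt`: the final theorem.
-/

noncomputable section

namespace Pool.Agent.PP.TX

open Pool.Agent.PP Pool.Agent.PP.K9

theorem ln0_ : Ln0Stmt := H21.ln0 K9.H3.lbd K9.dzo_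
theorem bnk_ : BnkStmt := H82.bnk T2.pr2_ T2.fxs_ T2.stg_ T8.dat_ T8.hgt_ T8.bn8_ T8.rtr_ T8.hkx_
theorem krg_ : KrgStmt :=
  H52.krg T3.rgl_ T3.inr_ T3.glp_ T3.co1_ T3.lpw_ T3.cgr_ T3.dgc_ K9.H34.inx K9.H3.lbd
theorem lxa_ : LxaStmt := H69.lxa ln0_ bnk_
theorem lxb_ : LxbStmt := H7.lxb ln0_ bnk_ krg_ T8.rtr_ TB.uwa_
theorem lxc_ : LxcStmt := H25.lxc TB.bnd_ TW.sta_
theorem lnw_ : LnwStmt :=
  H84.lnw TV.wat_ T3.loc_ T3.lsb_ T3.psg_ T8.qt3_ T8.fqt_ K9.H02.pug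
theorem clr_ : ClrStmt := H76.clr TB.uwa_
theorem ctx_ : CtxStmt := H67.ctx clr_ TV.clv_
theorem ltx_ : LtxStmt := H58.ltx lnw_ ctx_ TV.cpv_ ln0_ lxa_ lxb_ lxc_ T8.lfr_
theorem gen_ : GenStmt := H17.gen T8.fqt_ T2.fst_ T8.ts8_ T2.dvx_
theorem txa_ : TxaStmt := H58.txa gen_ ctx_ ltx_

/-- the final theorem -/
theorem fnx_ : FnxStmt :=
  H20.fnx TV.fnw_ T3.flt_ T2.dza_ T8.qt3_ K9.H34.inx TB.uwa_ ctx_ txa_

end Pool.Agent.PP.TX
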